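import Mathlib
import Pool.Agent.MP_d8b1b3_co.Boot
import Pool.Agent.MP_d8b1b3_co.H68.Primes

/-!
Counting layer for density one: almost every `m ≤ X` is `2 ^ j q q' w` with two large primes
`q ≠ q'` in the class `1` modulo `2 ^ (t + 2)` and `w` odd and good.
-/

set_option autoImplicit false

namespace Pool.Agent.MP_d8b1b3_co.H88d

open Finset Filter Pool.Agent.MP_d8b1b3_co.H68

lemma lg_tendsto : Tendsto (Nat.log 2) atTop atTop :=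
  tendsto_atTop.2 fun b => eventually_atTop.2
    ⟨2 ^ b, fun _ ha => Nat.le_log_of_pow_le (by norm_num) ha⟩

lemma lg_iterate (k : ℕ) : ∀ a, a ≤ k → (Nat.log 2)^[k] a = 0 := by
  induction k with
  | zero => intro a ha; simpa using ha
  | succ k ih =>
    intro a ha
    rw [Function.iterate_succ_apply]
    rcases Nat.eq_zero_or_pos a with rfl | h
    · exact ih _ (by simp)
    · have := Nat.log_lt_self 2 h.ne'
      exact ih _ (by omega)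

lemma mul_self_le (a : ℕ) (ha : 4 ≤ a) : a * a ≤ 2 ^ a := by
  induction a, ha using Nat.le_induction with
  | base => norm_num
  | succ n hn ih => rw [pow_succ]; nlinarith

lemma lg_ne {y : ℕ} (h : Nat.log 2 y ≠ 0) : y ≠ 0 := fun e => h (by rw [e, Nat.log_zero_right])

/-- the exponent of the iterated logarithm theorem is below the fourth iterated logarithm -/
theorem logstar_tiny : ∀ᶠ X : ℕ in atTop, ∃ t : ℕ, 100 ≤ t ∧ (∀ l, 0 < l → l ≤ X → G t l) ∧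
    2 ^ 2 ^ 2 ^ 2 ^ (t + 2) ≤ Nat.log 2 X := by
  obtain ⟨C, hC1, hC2⟩ := exists_C 10000
  have T := lg_tendsto
  filter_upwards [(T.comp (T.comp (T.comp (T.comp (T.comp (T.comp T)))))).eventually_ge_atTop
    (9 * C + 4)] with X hX
  simp only [Function.comp_apply] at hX
  set a1 := Nat.log 2 X
  set a2 := Nat.log 2 a1
  set a3 := Nat.log 2 a2
  set a4 := Nat.log 2 a3
  set a5 := Nat.log 2 a4
  set a6 := Nat.log 2 a5
  set a7 := Nat.log 2 a6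
  have n6 : a6 ≠ 0 := lg_ne (by omega)
  have n5 : a5 ≠ 0 := lg_ne n6
  have n4 : a4 ≠ 0 := lg_ne n5
  have n3 : a3 ≠ 0 := lg_ne n4
  have n2 : a2 ≠ 0 := lg_ne n3
  have n1 : a1 ≠ 0 := lg_ne n2
  have p7 : 2 ^ a7 ≤ a6 := Nat.pow_log_le_self 2 n6
  have p6 : 2 ^ a6 ≤ a5 := Nat.pow_log_le_self 2 n5
  have p5 : 2 ^ a5 ≤ a4 := Nat.pow_log_le_self 2 n4
  have p4 : 2 ^ a4 ≤ a3 := Nat.pow_log_le_self 2 n3
  have p3 : 2 ^ a3 ≤ a2 := Nat.pow_log_le_self 2 n2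
  have p2 : 2 ^ a2 ≤ a1 := Nat.pow_log_le_self 2 n1
  have hj : (Nat.log 2)^[a7 + 7] X = 0 := by
    rw [Function.iterate_add_apply]
    exact lg_iterate a7 a7 le_rfl
  have hx : X ≤ 2 ^ X ^ 2 := Nat.lt_two_pow_self.le.trans
    (Nat.pow_le_pow_right (by norm_num) (Nat.le_self_pow (by norm_num) X))
  refine ⟨C ^ (a7 + 7 + 1), le_trans (by omega) (Nat.le_self_pow (by omega) C),
    fun l h1 h2 => iterate C hC1 hC2 _ X hj l h1 (h2.trans hx), ?_⟩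
  have m : ∀ {a b : ℕ}, a ≤ b → 2 ^ a ≤ 2 ^ b := fun h => Nat.pow_le_pow_right two_pos h
  have h1 : C ^ (a7 + 7 + 1) ≤ 2 ^ (C * (a7 + 8)) := by
    rw [pow_mul]
    exact Nat.pow_le_pow_left Nat.lt_two_pow_self.le _
  have h2 : 1 ≤ 2 ^ (C * (a7 + 8)) := Nat.one_le_two_pow
  have h3 : C * (a7 + 8) + 2 ≤ 2 ^ a7 :=
    le_trans (by nlinarith [Nat.mul_le_mul_right a7 hX]) (mul_self_le a7 (by omega))
  have h4 : C ^ (a7 + 7 + 1) + 2 ≤ 2 ^ (C * (a7 + 8) + 2) := by rw [pow_add 2 _ 2]; omega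
  have h5 : C ^ (a7 + 7 + 1) + 2 ≤ a5 := h4.trans ((m (h3.trans p7)).trans p6)
  exact (m ((m ((m ((m h5).trans p5)).trans p4)).trans p3)).trans p2

lemma subset_sum (Q : Finset ℕ) (f : ℕ → ℝ) (hf : ∀ q ∈ Q, f q ≤ 1) {a : ℝ} (ha : 0 < a)
    (h : a ≤ ∑ q ∈ Q, f q) : ∃ Q' ⊆ Q, a ≤ ∑ q ∈ Q', f q ∧ ∑ q ∈ Q', f q ≤ a + 1 := by
  induction Q using Finset.induction_on with
  | empty => simp at h; linarith
  | insert b s hb ih =>
    by_cases h1 : a ≤ ∑ q ∈ s, f q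
    · obtain ⟨Q', h2, h3⟩ := ih (fun q hq => hf q (mem_insert_of_mem hq)) h1
      exact ⟨Q', h2.trans (subset_insert b s), h3⟩
    · refine ⟨_, Subset.rfl, h, ?_⟩
      rw [sum_insert hb]
      linarith [hf b (mem_insert_self b s), not_le.mp h1]

/-- primes `1 mod K` in `(64 ^ J, 64 ^ (J 2 ^ σ)]` whose reciprocals add up to about `Λ` -/
lemma primes_range : ∃ x₀ : ℕ, ∀ J σ K Λ : ℕ, x₀ ≤ J → 0 < K → K ≤ J → 0 < Λ → 200 * Λ * K ≤ σ →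
    ∃ Q : Finset ℕ, (∀ q ∈ Q, q.Prime ∧ q ≡ 1 [MOD K] ∧ 64 ^ J ≤ q ∧ q ≤ 64 ^ (J * 2 ^ σ)) ∧
      (Λ : ℝ) ≤ ∑ q ∈ Q, (1 : ℝ) / q ∧ ∑ q ∈ Q, (1 : ℝ) / q ≤ Λ + 1 := by
  obtain ⟨x₀, hx₀⟩ := eventually_atTop.1 primes_ap
  refine ⟨x₀, fun J σ K Λ hJ hK hKJ hΛ hσ => ?_⟩
  obtain ⟨B, hB⟩ : ∃ B : ℕ → Finset ℕ, ∀ j, B j =
    {p ∈ Ioc 0 (64 ^ (j + 1)) | 64 ^ (j + 1) < 64 * p ∧ p.Prime ∧ p ≡ 1 [MOD K]} :=
    ⟨_, fun _ => rfl⟩
  have b1 : ∀ j, ∀ p ∈ B j, 64 ^ j < p ∧ p ≤ 64 ^ (j + 1) ∧ p.Prime ∧ p ≡ 1 [MOD K] :=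
    fun j p hp => by
      rw [hB] at hp
      obtain ⟨k1, k2, k3⟩ := mem_filter.mp hp
      rw [pow_succ'] at k2
      exact ⟨Nat.lt_of_mul_lt_mul_left k2, (mem_Ioc.mp k1).2, k3⟩
  have b2 : ∀ i j, i < j → Disjoint (B i) (B j) := fun i j hij =>
    disjoint_left.mpr fun p h1 h2 => absurd ((b1 j p h2).1.trans_le (b1 i p h1).2.1)
      (not_lt.mpr (Nat.pow_le_pow_right (by norm_num) hij))
  have b3 : (Λ : ℝ) ≤ ∑ q ∈ (Ico J (J * 2 ^ σ)).biUnion B, (1 : ℝ) / q := by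
    rw [sum_biUnion fun i _ j _ hij =>
      (lt_or_gt_of_ne hij).elim (b2 i j) fun h => (b2 j i h).symm]
    have K0 : (0 : ℝ) < K := by exact_mod_cast hK
    have a1 := harmonic_blocks (J := J) (by omega) σ
    have a2 : ∑ j ∈ Ico J (J * 2 ^ σ), 1 / (84 * (K : ℝ)) * (1 / (j + 1)) ≤
        ∑ j ∈ Ico J (J * 2 ^ σ), ∑ q ∈ B j, (1 : ℝ) / q := by
      refine sum_le_sum fun j hj => ?_
      have c1 := (mem_Ico.mp hj).1
      have c2 : j + 1 < 64 ^ (j + 1) := Nat.lt_pow_self (by norm_num)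
      rw [hB]
      exact Primes_block hK (by omega) (hx₀ _ (le_trans (by omega) c2.le))
    rw [← mul_sum] at a2
    refine le_trans ?_ a2
    refine le_trans ?_ (mul_le_mul_of_nonneg_left a1 (by positivity))
    have a3 : (200 : ℝ) * Λ * K ≤ σ := by exact_mod_cast hσ
    rw [one_div_mul_eq_div, le_div_iff₀ (by positivity)]
    nlinarith [mul_nonneg (Nat.cast_nonneg (α := ℝ) Λ) K0.le]
  have b4 : ∀ q ∈ (Ico J (J * 2 ^ σ)).biUnion B,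
      q.Prime ∧ q ≡ 1 [MOD K] ∧ 64 ^ J ≤ q ∧ q ≤ 64 ^ (J * 2 ^ σ) := fun q hq => by
    obtain ⟨j, hj, hq⟩ := mem_biUnion.mp hq
    obtain ⟨k1, k2, k3, k4⟩ := b1 j q hq
    obtain ⟨j1, j2⟩ := mem_Ico.mp hj
    exact ⟨k3, k4, (Nat.pow_le_pow_right (by norm_num) j1).trans k1.le,
      k2.trans (Nat.pow_le_pow_right (by norm_num) j2)⟩
  obtain ⟨Q, h1, h2⟩ := subset_sum _ (fun q => (1 : ℝ) / q) (fun q hq => by
    have : (1 : ℝ) ≤ q := by exact_mod_cast (b4 q hq).1.one_le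
    exact (div_le_one (by linarith)).mpr this) (by exact_mod_cast hΛ) b3
  exact ⟨Q, fun q hq => b4 q (h1 hq), h2⟩

/-- (C1) the parameters -/
theorem params (Λ P₀ : ℕ) (hΛ : 0 < Λ) : ∀ᶠ X : ℕ in atTop, ∃ P R : ℕ, P₀ ≤ P ∧
    2 ^ (20 * R) ≤ Nat.log 2 P ∧ X ≤ P ^ R ∧ P ^ 20000 ≤ X ∧
    ∀ K : ℕ, 0 < K → 2 ^ 2 ^ 2 ^ K ≤ Nat.log 2 X → K ≤ P ∧ ∃ Q : Finset ℕ,
      (∀ q ∈ Q, q.Prime ∧ q ≡ 1 [MOD K] ∧ P ^ 5000 ≤ q ∧ q ^ 4 ≤ X) ∧
      (Λ : ℝ) ≤ ∑ q ∈ Q, (1 : ℝ) / q ∧ ∑ q ∈ Q, (1 : ℝ) / q ≤ Λ + 1 := by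
  obtain ⟨x₀, hx₀⟩ := primes_range
  have T := lg_tendsto
  filter_upwards [(T.comp (T.comp (T.comp T))).eventually_ge_atTop (200 * Λ + 20 + P₀ + x₀)]
    with X hX
  simp only [Function.comp_apply] at hX
  have hXL := Nat.lt_pow_succ_log_self one_lt_two X
  set L := Nat.log 2 X
  set a2 := Nat.log 2 L
  set a3 := Nat.log 2 a2
  set a4 := Nat.log 2 a3
  have n3 : a3 ≠ 0 := lg_ne (by omega)
  have n2 : a2 ≠ 0 := lg_ne n3
  have n1 : L ≠ 0 := lg_ne n2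
  have n0 : X ≠ 0 := lg_ne n1
  have p4 : 2 ^ a4 ≤ a3 := Nat.pow_log_le_self 2 n3
  have p3 : 2 ^ a3 ≤ a2 := Nat.pow_log_le_self 2 n2
  have p2 : 2 ^ a2 ≤ L := Nat.pow_log_le_self 2 n1
  have p1 : 2 ^ L ≤ X := Nat.pow_log_le_self 2 n0
  have m : ∀ {a b : ℕ}, a ≤ b → 2 ^ a ≤ 2 ^ b := fun h => Nat.pow_le_pow_right two_pos h
  have q1 : a4 * a4 ≤ a3 := (mul_self_le a4 (by omega)).trans p4
  have q2 : (200 * Λ + 20) * a4 ≤ a3 := (Nat.mul_le_mul_right a4 (by omega)).trans q1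
  have q0 : 20 ≤ a3 := le_trans (by omega) (Nat.lt_two_pow_self.le.trans p4)
  obtain ⟨σ, hσ⟩ : ∃ σ, a3 = σ + 20 := ⟨a3 - 20, by omega⟩
  have q3 : 200 * Λ * a4 ≤ σ := by nlinarith
  have q4 : a4 ≤ σ := by nlinarith
  obtain ⟨s, hs⟩ : ∃ s, s = 2 ^ σ := ⟨_, rfl⟩
  have s1 : σ < s := hs ▸ Nat.lt_two_pow_self
  have s2 : 1048576 * s ≤ a2 := by
    rw [hσ, pow_add, ← hs] at p3
    omega
  have s3 : 2 ^ (960000 * s) * (24000 * s) ≤ L := by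
    have : 24000 * s ≤ 2 ^ (88576 * s) :=
      le_trans (by omega) (Nat.lt_two_pow_self (n := 88576 * s)).le
    refine (Nat.mul_le_mul_left _ this).trans ?_
    rw [← pow_add]
    exact (m (by omega)).trans p2
  obtain ⟨b, hb⟩ : ∃ b, b = L / (24000 * s) := ⟨_, rfl⟩
  have b1 : 2 ^ (960000 * s) ≤ b := hb ▸ (Nat.le_div_iff_mul_le (by omega)).2 s3
  have b2 : 960000 * s < b := Nat.lt_two_pow_self.trans_le b1
  have b3 : b * (24000 * s) ≤ L := hb ▸ Nat.div_mul_le_self _ _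
  have b4 : L < 24000 * s * (b + 1) := hb ▸ Nat.lt_mul_div_succ L (by omega)
  have b5 : b < 2 ^ b := Nat.lt_two_pow_self
  refine ⟨2 ^ b, 48000 * s, by omega, ?_, ?_, ?_, fun K hK hKL => ?_⟩
  · rw [Nat.log_pow one_lt_two]
    exact le_trans (le_of_eq (by congr 1; ring)) b1
  · rw [← pow_mul]
    exact hXL.le.trans (m (by nlinarith))
  · rw [← pow_mul]
    exact (m (by nlinarith)).trans p1
  · have k1 : K ≤ a4 := Nat.le_log_of_pow_le one_lt_two (Nat.le_log_of_pow_le one_lt_two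
      (Nat.le_log_of_pow_le one_lt_two hKL))
    obtain ⟨Q, h1, h2⟩ := hx₀ (1000 * b) σ K Λ (by omega) hK (by omega) hΛ
      ((Nat.mul_le_mul_left _ k1).trans q3)
    refine ⟨by omega, Q, fun q hq => ?_, h2⟩
    obtain ⟨k2, k3, k4, k5⟩ := h1 q hq
    rw [show (64 : ℕ) = 2 ^ 6 by norm_num, ← pow_mul] at k4 k5
    refine ⟨k2, k3, ?_, ?_⟩
    · rw [← pow_mul]
      exact (m (by omega)).trans k4
    · refine (Nat.pow_le_pow_left k5 4).trans ?_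
      rw [← pow_mul, ← hs]
      exact (m (by nlinarith)).trans p1

lemma card_dvd (X d : ℕ) (hd : 0 < d) :
    (X : ℝ) / d - 1 ≤ #{m ∈ Ioc 0 X | d ∣ m} ∧ (#{m ∈ Ioc 0 X | d ∣ m} : ℝ) ≤ X / d := by
  rw [Nat.Ioc_filter_dvd_card_eq_div]
  refine ⟨?_, Nat.cast_div_le⟩
  have d0 : (0 : ℝ) < d := by exact_mod_cast hd
  have h : X < d * (X / d + 1) := Nat.lt_mul_div_succ X hd
  have h' : (X : ℝ) < d * ((X / d : ℕ) + 1) := by exact_mod_cast h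
  rw [sub_le_iff_le_add, div_le_iff₀ d0]
  linarith

/-- (C2) few numbers have less than two prime factors in `Q` -/
theorem few_factors (X : ℕ) (Q : Finset ℕ) (hQ : ∀ q ∈ Q, q.Prime ∧ q ≤ X) {Λ : ℝ} (hΛ : 2 ≤ Λ)
    (h : Λ ≤ ∑ q ∈ Q, (1 : ℝ) / q) :
    (#{m ∈ Ioc 0 X | #{q ∈ Q | q ∣ m} ≤ 1} : ℝ) ≤ 12 / Λ * X := by
  set L := ∑ q ∈ Q, (1 : ℝ) / q with hL
  have X0 : (0 : ℝ) ≤ X := Nat.cast_nonneg X
  have ind : ∀ d, ∑ m ∈ Ioc 0 X, (if d ∣ m then (1 : ℝ) else 0) = #{m ∈ Ioc 0 X | d ∣ m} :=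
    fun d => by simp
  have om : ∀ m, (#{q ∈ Q | q ∣ m} : ℝ) = ∑ q ∈ Q, if q ∣ m then (1 : ℝ) else 0 :=
    fun m => by simp
  have cQ : (#Q : ℝ) ≤ X := by
    have : #Q ≤ #(Ioc 0 X) := card_le_card fun q hq => mem_Ioc.2 ⟨(hQ q hq).1.pos, (hQ q hq).2⟩
    rw [Nat.card_Ioc] at this
    exact_mod_cast this
  have e1 : X * L - X ≤ ∑ m ∈ Ioc 0 X, (#{q ∈ Q | q ∣ m} : ℝ) := by
    simp only [om]
    rw [sum_comm]
    have : ∑ q ∈ Q, ((X : ℝ) / q - 1) ≤ ∑ q ∈ Q, ∑ m ∈ Ioc 0 X, if q ∣ m then (1 : ℝ) else 0 :=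
      sum_le_sum fun q hq => by rw [ind]; exact (card_dvd X q (hQ q hq).1.pos).1
    rw [sum_sub_distrib, sum_const, nsmul_eq_mul, mul_one] at this
    have e : ∑ q ∈ Q, (X : ℝ) / q = X * L := by
      rw [hL, mul_sum]; exact sum_congr rfl fun q _ => by ring
    linarith
  have e2 : ∑ m ∈ Ioc 0 X, (#{q ∈ Q | q ∣ m} : ℝ) ^ 2 ≤ X * L + X * L ^ 2 := by
    simp only [om, sq, sum_mul_sum]
    rw [sum_comm]
    have e : X * L + X * (L * L) = ∑ q ∈ Q, ((X : ℝ) / q + ∑ q' ∈ Q, (X : ℝ) / (q * q')) := by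
      rw [sum_add_distrib, hL, sum_mul_sum, mul_sum, mul_sum]
      congr 1
      · exact sum_congr rfl fun q _ => by ring
      · refine sum_congr rfl fun q _ => ?_
        rw [mul_sum]
        exact sum_congr rfl fun q' _ => by ring
    rw [e]
    refine sum_le_sum fun q hq => ?_
    rw [sum_comm]
    have : ∀ q' ∈ Q, ∑ m ∈ Ioc 0 X, (if q ∣ m then (1 : ℝ) else 0) * (if q' ∣ m then 1 else 0) ≤
        (if q = q' then (X : ℝ) / q else 0) + X / (q * q') := by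
      intro q' hq'
      split_ifs with h1
      · subst h1
        refine le_trans (le_of_eq ?_) ((card_dvd X q (hQ q hq).1.pos).2.trans
          (le_add_of_nonneg_right (by positivity)))
        rw [← ind]
        exact sum_congr rfl fun m _ => by split_ifs <;> simp
      · have c := (Nat.coprime_primes (hQ q hq).1 (hQ q' hq').1).2 h1
        have := (card_dvd X (q * q') (mul_pos (hQ q hq).1.pos (hQ q' hq').1.pos)).2
        rw [← ind, Nat.cast_mul] at this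
        rw [zero_add]
        refine le_trans (sum_le_sum fun m _ => ?_) this
        by_cases a : q ∣ m
        · by_cases b : q' ∣ m
          · simp [a, b, c.mul_dvd_of_dvd_of_dvd a b]
          · simp only [b, if_false, mul_zero]; positivity
        · simp only [a, if_false, zero_mul]; positivity
    refine (sum_le_sum this).trans ?_
    rw [sum_add_distrib, sum_ite_eq, if_pos hq]
  have e3 : ∑ m ∈ Ioc 0 X, ((#{q ∈ Q | q ∣ m} : ℝ) - L) ^ 2 ≤ 3 * X * L := by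
    have : ∀ m ∈ Ioc 0 X, ((#{q ∈ Q | q ∣ m} : ℝ) - L) ^ 2 =
        (#{q ∈ Q | q ∣ m} : ℝ) ^ 2 - 2 * L * #{q ∈ Q | q ∣ m} + L ^ 2 := fun m _ => by ring
    rw [sum_congr rfl this, sum_add_distrib, sum_sub_distrib, ← mul_sum, sum_const, Nat.card_Ioc,
      nsmul_eq_mul, Nat.sub_zero]
    nlinarith [mul_le_mul_of_nonneg_left e1 (show 0 ≤ 2 * L by linarith)]
  have e4 : #{m ∈ Ioc 0 X | #{q ∈ Q | q ∣ m} ≤ 1} • (L ^ 2 / 4) ≤ 3 * X * L := by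
    refine (card_nsmul_le_sum _ (fun m => ((#{q ∈ Q | q ∣ m} : ℝ) - L) ^ 2) _ fun m hm => ?_).trans
      ((sum_le_sum_of_subset_of_nonneg (filter_subset _ _) fun _ _ _ => sq_nonneg _).trans e3)
    have a : (#{q ∈ Q | q ∣ m} : ℝ) ≤ 1 := by exact_mod_cast (mem_filter.1 hm).2
    nlinarith
  rw [nsmul_eq_mul] at e4
  have n0 := Nat.cast_nonneg (α := ℝ) #{m ∈ Ioc 0 X | #{q ∈ Q | q ∣ m} ≤ 1}
  rw [div_mul_eq_mul_div, le_div_iff₀ (by linarith)]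
  refine (mul_le_mul_of_nonneg_left h n0).trans (le_of_mul_le_mul_right ?_ (show 0 < L by linarith))
  nlinarith

open Classical in
/-- (C3) the count -/
theorem count_bad (X J : ℕ) (Q : Finset ℕ) (hQ : ∀ q ∈ Q, q.Prime ∧ q ≤ X) {Λ η : ℝ} (hΛ : 2 ≤ Λ)
    (h1 : Λ ≤ ∑ q ∈ Q, (1 : ℝ) / q) (h2 : ∑ q ∈ Q, (1 : ℝ) / q ≤ Λ + 1) (hη : 0 ≤ η)
    (g : ℕ → Prop) (hg : ∀ q ∈ Q, ∀ q' ∈ Q,
      (#{w ∈ Ioc 0 (X / (q * q')) | ¬ g w} : ℝ) ≤ η * (X / (q * q'))) :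
    (#{m ∈ Ioc 0 X | ¬ ∃ j, ∃ q ∈ Q, ∃ q' ∈ Q, ∃ w, q ≠ q' ∧ w % 2 = 1 ∧ g w ∧
      m = 2 ^ j * (q * q' * w)} : ℝ) ≤ (1 / 2 ^ J + 12 / Λ + J * (η * (Λ + 1) ^ 2)) * X := by
  have sub : {m ∈ Ioc 0 X | ¬ ∃ j, ∃ q ∈ Q, ∃ q' ∈ Q, ∃ w, q ≠ q' ∧ w % 2 = 1 ∧ g w ∧
      m = 2 ^ j * (q * q' * w)} ⊆ ({m ∈ Ioc 0 X | 2 ^ J ∣ m} ∪
        {m ∈ Ioc 0 X | #{q ∈ Q | q ∣ m} ≤ 1}) ∪ (range J ×ˢ Q ×ˢ Q).biUnion fun x =>
          {w ∈ Ioc 0 (X / (x.2.1 * x.2.2)) | ¬ g w}.image fun w => 2 ^ x.1 * (x.2.1 * x.2.2 * w) := by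
    intro m hm
    obtain ⟨m1, m2⟩ := mem_filter.1 hm
    by_cases a : 2 ^ J ∣ m
    · exact mem_union_left _ (mem_union_left _ (mem_filter.2 ⟨m1, a⟩))
    by_cases b : #{q ∈ Q | q ∣ m} ≤ 1
    · exact mem_union_left _ (mem_union_right _ (mem_filter.2 ⟨m1, b⟩))
    refine mem_union_right _ ?_
    obtain ⟨q, hq, q', hq', hne⟩ := one_lt_card.1 (not_le.1 b)
    obtain ⟨q1, q2⟩ := mem_filter.1 hq
    obtain ⟨q3, q4⟩ := mem_filter.1 hq'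
    obtain ⟨n, hn⟩ := ((Nat.coprime_primes (hQ q q1).1 (hQ q' q3).1).2 hne).mul_dvd_of_dvd_of_dvd
      q2 q4
    obtain ⟨m3, m4⟩ := mem_Ioc.1 m1
    have n0 : n ≠ 0 := by rintro rfl; omega
    obtain ⟨j, w, hw, hj⟩ := Nat.exists_eq_two_pow_mul_odd n0
    have e : m = 2 ^ j * (q * q' * w) := by rw [hn, hj]; ring
    have hjJ : j < J := by
      by_contra c
      exact a (e ▸ (pow_dvd_pow 2 (not_lt.1 c)).mul_right _)
    refine mem_biUnion.2 ⟨(j, q, q'), mem_product.2 ⟨mem_range.2 hjJ, mem_product.2 ⟨q1, q3⟩⟩,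
      mem_image.2 ⟨w, mem_filter.2 ⟨mem_Ioc.2 ⟨hw.pos, ?_⟩, fun c => m2
        ⟨j, q, q1, q', q3, w, hne, Nat.odd_iff.1 hw, c, e⟩⟩, e.symm⟩⟩
    rw [Nat.le_div_iff_mul_le (mul_pos (hQ q q1).1.pos (hQ q' q3).1.pos), mul_comm]
    exact (Nat.le_mul_of_pos_left _ (by positivity)).trans (e ▸ m4)
  have c1 := (card_le_card sub).trans ((card_union_le _ _).trans
    (Nat.add_le_add (card_union_le _ _) card_biUnion_le))
  refine (Nat.cast_le.2 c1).trans ?_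
  push_cast
  have c2 := (card_dvd X (2 ^ J) (by positivity)).2
  have c3 := few_factors X Q hQ hΛ h1
  have c4 : ∑ x ∈ range J ×ˢ Q ×ˢ Q, (#({w ∈ Ioc 0 (X / (x.2.1 * x.2.2)) | ¬ g w}.image
      fun w => 2 ^ x.1 * (x.2.1 * x.2.2 * w)) : ℝ) ≤ J * (η * (Λ + 1) ^ 2) * X := by
    refine (sum_le_sum (g := fun x => η * ((X : ℝ) / (x.2.1 * x.2.2))) fun x hx => ?_).trans ?_
    · obtain ⟨-, a⟩ := mem_product.1 hx
      exact (Nat.cast_le.2 card_image_le).trans (hg _ (mem_product.1 a).1 _ (mem_product.1 a).2)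
    · rw [sum_product]
      dsimp only
      rw [sum_const, card_range, nsmul_eq_mul, sum_product, mul_assoc]
      refine mul_le_mul_of_nonneg_left ?_ (Nat.cast_nonneg J)
      have : ∑ q ∈ Q, ∑ q' ∈ Q, η * (X / (q * q') : ℝ) =
          η * ((∑ q ∈ Q, (1 : ℝ) / q) * ∑ q ∈ Q, (1 : ℝ) / q) * X := by
        rw [sum_mul_sum, mul_sum, sum_mul]
        refine sum_congr rfl fun q _ => ?_
        rw [mul_sum, sum_mul]
        exact sum_congr rfl fun q' _ => by ring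
      dsimp only
      rw [this, sq]
      gcongr
  push_cast at c2
  rw [add_mul, add_mul, one_div_mul_eq_div]
  linarith

open Classical in
lemma card_div (Y c : ℕ) (hc : 0 < c) (g : ℕ → Prop) :
    #{w ∈ Ioc 0 Y | ¬ g (w / c)} ≤ c * (#{z ∈ Ioc 0 (Y / c) | ¬ g z} + 1) := by
  have : #{w ∈ Ioc 0 Y | ¬ g (w / c)} ≤ #(range c ×ˢ insert 0 {z ∈ Ioc 0 (Y / c) | ¬ g z}) := by
    refine card_le_card_of_injOn (fun w => (w % c, w / c)) (fun w hw => ?_) fun w _ w' _ h => ?_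
    · obtain ⟨a, b⟩ := mem_filter.1 hw
      refine mem_coe.2 (mem_product.2 ⟨mem_range.2 (Nat.mod_lt _ hc), mem_insert.2 ?_⟩)
      rcases Nat.eq_zero_or_pos (w / c) with h | h
      · exact Or.inl h
      · exact Or.inr (mem_filter.2 ⟨mem_Ioc.2 ⟨h, Nat.div_le_div_right (mem_Ioc.1 a).2⟩, b⟩)
    · obtain ⟨a, b⟩ := Prod.mk.inj h
      rw [← Nat.div_add_mod w c, ← Nat.div_add_mod w' c, a, b]
  rw [card_product, card_range] at this
  exact this.trans (Nat.mul_le_mul_left c (card_insert_le _ _))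

open Classical in
/-- The counting layer. `good P z` is the conclusion of the short interval lemma, `c P` a
multiplier depending on `P` only (take `c P = 1` if there is none), `E` any property of all large
`P`. -/
theorem almost_all (good : ℕ → ℕ → Prop)
    (SI : ∀ ε : ℝ, 0 < ε → ∀ᶠ P : ℕ in atTop, ∀ R Z : ℕ, 2 ^ (20 * R) ≤ Nat.log 2 P →
      P ^ 10 ≤ Z → Z ≤ P ^ R → (#{z ∈ Ioc 0 Z | ¬ good P z} : ℝ) ≤ ε * Z)
    (c : ℕ → ℕ) (E : ℕ → Prop) (hc : ∀ᶠ P : ℕ in atTop, 0 < c P ∧ c P ≤ P ^ 100 ∧ E P)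
    {ε : ℝ} (hε : 0 < ε) : ∀ᶠ X : ℕ in atTop, ∃ t P : ℕ, 100 ≤ t ∧ (∀ l, 0 < l → l ≤ X → G t l) ∧
      2 ^ (t + 2) ≤ P ∧ P ^ 20000 ≤ X ∧ 0 < c P ∧ c P ≤ P ^ 100 ∧ E P ∧
      (#{m ∈ Ioc 0 X | ¬ ∃ j q q' w : ℕ, m = 2 ^ j * (q * q' * w) ∧ q ≠ q' ∧
        (q.Prime ∧ q ≡ 1 [MOD 2 ^ (t + 2)] ∧ P ^ 5000 ≤ q) ∧
        (q'.Prime ∧ q' ≡ 1 [MOD 2 ^ (t + 2)] ∧ P ^ 5000 ≤ q') ∧
        w % 2 = 1 ∧ good P (w / c P) ∧ P ^ 1000 ≤ w / c P} : ℝ) ≤ ε * X := by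
  obtain ⟨J, hJ⟩ : ∃ J : ℕ, 3 / ε < J := exists_nat_gt _
  obtain ⟨Λ, hΛ⟩ : ∃ Λ : ℕ, 36 / ε + 2 < Λ := exists_nat_gt _
  have Λ2 : (2 : ℝ) ≤ Λ := by linarith [div_pos (show (0 : ℝ) < 36 by norm_num) hε]
  have J0 : (0 : ℝ) < J := (div_pos (by norm_num) hε).trans hJ
  obtain ⟨η, η0, hη⟩ : ∃ η : ℝ, 0 < η ∧ J * (2 * η * (Λ + 1) ^ 2) = ε / 3 :=
    ⟨ε / (6 * J * (Λ + 1) ^ 2), by positivity, by field_simp; ring⟩
  obtain ⟨P₀, hP₀⟩ := eventually_atTop.1 (((SI η η0).and hc).and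
    (tendsto_natCast_atTop_atTop.eventually_ge_atTop (1 / η)))
  filter_upwards [params Λ P₀ (by exact_mod_cast (show (0 : ℝ) < Λ by linarith)), logstar_tiny]
    with X ⟨P, R, p1, p2, p3, p4, p5⟩ ⟨t, t1, t2, t3⟩
  obtain ⟨⟨s1, c1, c2, c3⟩, s2⟩ := hP₀ P p1
  obtain ⟨k1, Q, k2, k3, k4⟩ := p5 (2 ^ (t + 2)) (by positivity) t3
  refine ⟨t, P, t1, t2, k1, p4, c1, c2, c3, ?_⟩
  have P1 : 1 ≤ P := le_trans Nat.one_le_two_pow k1
  have := count_bad X J Q (fun q hq => ⟨(k2 q hq).1, (Nat.le_self_pow (by norm_num) q).trans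
    (k2 q hq).2.2.2⟩) Λ2 k3 k4 (η := 2 * η) (by positivity)
    (fun w => good P (w / c P) ∧ P ^ 1000 ≤ w / c P) ?_
  · refine le_trans (Nat.cast_le.2 (card_le_card fun m hm => ?_)) (this.trans ?_)
    · obtain ⟨a, b⟩ := mem_filter.1 hm
      refine mem_filter.2 ⟨a, ?_⟩
      rintro ⟨j, q, hq, q', hq', w, h1, h2, h3, h4⟩
      exact b ⟨j, q, q', w, h4, h1, ⟨(k2 q hq).1, (k2 q hq).2.1, (k2 q hq).2.2.1⟩,
        ⟨(k2 q' hq').1, (k2 q' hq').2.1, (k2 q' hq').2.2.1⟩, h2, h3⟩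
    · refine mul_le_mul_of_nonneg_right ?_ (Nat.cast_nonneg X)
      have a1 : (J : ℝ) ≤ 2 ^ J := by exact_mod_cast Nat.lt_two_pow_self.le
      have a2 : 1 / (2 : ℝ) ^ J ≤ ε / 3 := by
        rw [div_lt_iff₀ hε] at hJ
        rw [div_le_div_iff₀ (by positivity) (by norm_num)]
        nlinarith
      have a3 : 12 / (Λ : ℝ) ≤ ε / 3 := by
        have : 36 / ε < Λ := by linarith
        rw [div_lt_iff₀ hε] at this
        rw [div_le_div_iff₀ (by linarith) (by norm_num)]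
        linarith
      linarith
  · intro q hq q' hq'
    obtain ⟨a1, -, a2, a3⟩ := k2 q hq
    obtain ⟨b1, -, b2, b3⟩ := k2 q' hq'
    have d1 : q * q' * (q * q') ≤ X := by
      rcases le_total q q' with h | h
      · exact le_trans (by rw [show q' ^ 4 = q' * q' * (q' * q') by ring]; gcongr) b3
      · exact le_trans (by rw [show q ^ 4 = q * q * (q * q) by ring]; gcongr) a3
    have d2 : P ^ 1102 ≤ X / (q * q') := by
      refine le_trans ?_ ((Nat.le_div_iff_mul_le (mul_pos a1.pos b1.pos)).2 d1)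
      exact ((Nat.pow_le_pow_right P1 (by omega)).trans a2).trans
        (Nat.le_mul_of_pos_right _ b1.pos)
    have d3 : ((X / (q * q') : ℕ) : ℝ) ≤ X / (q * q') := by
      rw [← Nat.cast_mul]; exact Nat.cast_div_le
    have d4 : X / (q * q') ≤ X := Nat.div_le_self _ _
    generalize X / (q * q') = Y at d2 d3 d4 ⊢
    have P2 : 2 ≤ P := le_trans (Nat.le_self_pow (by omega) 2) k1
    have d5 : P * (P ^ 1000 + 1) * c P ≤ Y := by
      refine le_trans ?_ d2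
      have : P ^ 1000 + 1 ≤ P ^ 1001 := by
        have := Nat.one_le_pow 1000 P P1
        rw [pow_succ]; nlinarith
      calc _ ≤ P * P ^ 1001 * P ^ 100 := by gcongr
        _ = _ := by ring
    have d0 : P ^ 10 * c P ≤ Y := le_trans (Nat.mul_le_mul_right _ (le_trans
      ((Nat.pow_le_pow_right P1 (by norm_num)).trans (Nat.le_succ _))
      (Nat.le_mul_of_pos_left _ P1))) d5
    have d6 := s1 R (Y / c P) p2 ((Nat.le_div_iff_mul_le c1).2 d0)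
      ((Nat.div_le_self _ _).trans (d4.trans p3))
    have d7 : #{z ∈ Ioc 0 (Y / c P) | ¬ (good P z ∧ P ^ 1000 ≤ z)} ≤
        #{z ∈ Ioc 0 (Y / c P) | ¬ good P z} + P ^ 1000 := by
      refine le_trans (card_le_card (t := {z ∈ Ioc 0 (Y / c P) | ¬ good P z} ∪ range (P ^ 1000))
        fun z hz => ?_) ((card_union_le _ _).trans (by rw [card_range]))
      obtain ⟨a, b⟩ := mem_filter.1 hz
      by_cases h : good P z
      · exact mem_union_right _ (mem_range.2 (not_le.1 fun h' => b ⟨h, h'⟩))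
      · exact mem_union_left _ (mem_filter.2 ⟨a, h⟩)
    have d10 : (#{w ∈ Ioc 0 Y | ¬ (good P (w / c P) ∧ P ^ 1000 ≤ w / c P)} : ℝ) ≤
        c P * (#{z ∈ Ioc 0 (Y / c P) | ¬ good P z} + (P ^ 1000 + 1 : ℕ)) := by
      have := card_div Y (c P) c1 fun z => good P z ∧ P ^ 1000 ≤ z
      have h := (show #{w ∈ Ioc 0 Y | ¬ (good P (w / c P) ∧ P ^ 1000 ≤ w / c P)} ≤ c P *
        (#{z ∈ Ioc 0 (Y / c P) | ¬ (good P z ∧ P ^ 1000 ≤ z)} + 1) by convert this).trans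
        (Nat.mul_le_mul_left _ (Nat.add_le_add_right d7 1))
      rw [add_assoc] at h
      exact_mod_cast h
    have d8 : (c P : ℝ) * (Y / c P : ℕ) ≤ Y := by exact_mod_cast Nat.mul_div_le Y (c P)
    have d9 : (P : ℝ) * (P ^ 1000 + 1 : ℕ) * c P ≤ Y := by exact_mod_cast d5
    have c0 : (0 : ℝ) ≤ c P := Nat.cast_nonneg _
    have n0 : (0 : ℝ) ≤ (P ^ 1000 + 1 : ℕ) := Nat.cast_nonneg _
    generalize ((P ^ 1000 + 1 : ℕ) : ℝ) = N at d9 d10 n0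
    rw [div_le_iff₀ η0] at s2
    refine le_trans ?_ (mul_le_mul_of_nonneg_left d3 (by positivity))
    refine le_trans (le_trans (le_of_eq (by congr)) d10) ?_
    nlinarith [mul_le_mul_of_nonneg_left d6 c0, mul_le_mul_of_nonneg_left d8 η0.le,
      mul_le_mul_of_nonneg_left d9 η0.le, mul_le_mul_of_nonneg_left s2 (mul_nonneg c0 n0)]

open Classical in
/-- from few exceptions to natural density one -/
theorem density_one (S : ℕ → Prop)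
    (h : ∀ ε : ℝ, 0 < ε → ∀ᶠ X : ℕ in atTop, (#{m ∈ Ioc 0 X | ¬ S m} : ℝ) ≤ ε * X) :
    Tendsto (fun X : ℕ => (#{m ∈ Ioc 0 X | S m} : ℝ) / X) atTop (nhds 1) := by
  rw [Metric.tendsto_nhds]
  intro ε hε
  filter_upwards [h (ε / 2) (by positivity), eventually_gt_atTop 0] with X h1 h2
  have X0 : (0 : ℝ) < X := by exact_mod_cast h2
  have e := card_filter_add_card_filter_not (s := Ioc 0 X) S
  rw [Nat.card_Ioc, Nat.sub_zero] at e
  have e' : (#{m ∈ Ioc 0 X | S m} : ℝ) + #{m ∈ Ioc 0 X | ¬ S m} = X := by exact_mod_cast e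
  have n0 := Nat.cast_nonneg (α := ℝ) #{m ∈ Ioc 0 X | ¬ S m}
  rw [Real.dist_eq, abs_lt, lt_sub_iff_add_lt, lt_div_iff₀ X0, sub_lt_iff_lt_add, div_lt_iff₀ X0]
  constructor <;> nlinarith [mul_pos hε X0]

end Pool.Agent.MP_d8b1b3_co.H88d
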